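import Pool.Agent.J6H24.MC.Fin

set_option autoImplicit false

/-! # Six even subgraphs with every edge in exactly four of them: circuits modulo chains

A finite graph, loops and parallel edges allowed, has vertex set `V` and edge set `E`; the ends of
the edge `e` are `src e` and `dst e`.  Let `C 0, ..., C (m - 1)` be a chain of sets of edges, each of
which has at most four edges outside of the earlier ones and no bridge modulo the earlier ones, or is
doubly connected modulo the earlier ones (for instance, circuits or ears with at most four new edges,
or pieces with two disjoint spanning trees; or the empty chain).  If the graph has no cut edge and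
the graph obtained by contraction of the components of the union of the chain has no circuit with more
than 13 vertices, then it has six even subgraphs such that every edge is in exactly four of them.
The circumference, the order, the degrees and the connectivity of the graph are arbitrary.

Proof.  The class of graphs with this property is closed under the contraction of connected sets of
vertices (`J6H24/MC/Gen.lean`).  By the starting files `N393/C13` the contracted graph has a
nowhere-zero flow over the group of order four or ten classes of vertices which form a Petersen graph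
with exactly three edges leaving each class.  In the first case the flow is lifted along the chain
(`R926/SC`), and the graph is a union of two even subgraphs; in the second case one uses the
induction of `R140/PK`. -/

namespace Pool.Agent.Results.MP_40718a_co.CircumferenceModuloChains

open Finset

/-- the simple graph in which two distinct vertices are adjacent if an edge in `F` joins them -/
def under {V E : Type} (src dst : E → V) (F : Set E) : SimpleGraph V where
  Adj x y := x ≠ y ∧ ∃ e ∈ F, (src e = x ∧ dst e = y) ∨ (src e = y ∧ dst e = x)
  symm := ⟨fun _ _ h => ⟨h.1.symm, h.2.imp fun _ he => ⟨he.1, he.2.symm⟩⟩⟩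
  loopless := ⟨fun _ h => h.1 rfl⟩

/-- the edge `e` is a cut edge: its ends are not connected by the other edges -/
def IsCutEdge {V E : Type} (src dst : E → V) (e : E) : Prop :=
  ¬ (under src dst {e' | e' ≠ e}).Reachable (src e) (dst e)

/-- the degree of `v` in the set of edges `F`, where a loop counts twice -/
def deg {V E : Type} [DecidableEq V] (src dst : E → V) (F : Finset E) (v : V) : ℕ :=
  ∑ e ∈ F, ((if src e = v then 1 else 0) + (if dst e = v then 1 else 0))

/-- the edges with exactly one end in `X` -/
def boundary {V E : Type} [DecidableEq V] [Fintype E] (src dst : E → V) (X : Finset V) :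
    Finset E :=
  univ.filter (fun e => ¬ (src e ∈ X ↔ dst e ∈ X))

/-- the union of the sets `C j` with `j < i` -/
def earlier {E : Type} [DecidableEq E] {m : ℕ} (C : Fin m → Finset E) (i : Fin m) : Finset E :=
  (univ.filter (fun j => j < i)).biUnion C

/-- `H` can be added to the chain after `F`: either (short) `H` has at most four edges outside `F`
and no bridge modulo `F`: no set `Y` of vertices without boundary edges in `F` has exactly one
boundary edge in `H`; or (doubly connected) `H` contains two disjoint sets each of which connects,
modulo `F`, whatever `H` connects: every set `Y` of vertices without boundary edges in `F` and with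
a boundary edge in `H` has boundary edges in both sets. -/
def Adds {V E : Type} [DecidableEq V] [Fintype E] [DecidableEq E] (src dst : E → V)
    (F H : Finset E) : Prop :=
  ((H \ F).card ≤ 4 ∧ ∀ Y : Finset V, Disjoint (boundary src dst Y) F →
    (boundary src dst Y ∩ H).card ≠ 1) ∨
  ∃ T₁ T₂ : Finset E, T₁ ⊆ H ∧ T₂ ⊆ H ∧ Disjoint T₁ T₂ ∧ ∀ Y : Finset V,
    Disjoint (boundary src dst Y) F → ¬ Disjoint (boundary src dst Y) H →
      ¬ Disjoint (boundary src dst Y) T₁ ∧ ¬ Disjoint (boundary src dst Y) T₂

/-- `x` and `y` are in the same component of the graph with edge set `F` -/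
def Linked {V E : Type} (src dst : E → V) (F : Finset E) (x y : V) : Prop :=
  (under src dst {e | e ∈ F}).Reachable x y

/-- The graph obtained by contraction of the components of `F` has a circuit with `n` vertices: there
are `v 0, ..., v (n - 1)` in different components of `F` such that for every `i < n` an edge joins
the components of `v i` and `v (i + 1)`, with indices modulo `n`. -/
def HasCircuit {V E : Type} (src dst : E → V) (F : Finset E) (n : ℕ) : Prop :=
  ∃ v : ℕ → V, (∀ i < n, ∀ j < n, Linked src dst F (v i) (v j) → i = j) ∧
    ∀ i < n, ∃ e, (Linked src dst F (src e) (v i) ∧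
        Linked src dst F (dst e) (v ((i + 1) % n))) ∨
      (Linked src dst F (src e) (v ((i + 1) % n)) ∧ Linked src dst F (dst e) (v i))

/-- **Theorem.** Let a graph without a cut edge be given, and a chain of sets of edges.  If the graph
obtained by contraction of the components of the union of the chain has no circuit with more than 13
vertices, then there are six even subgraphs such that every edge is in exactly four of them. -/
theorem result (V E : Type) [Fintype V] [DecidableEq V] [Fintype E] [DecidableEq E]
    (src dst : E → V) (hI : ∀ e, ¬ IsCutEdge src dst e) (m : ℕ) (C : Fin m → Finset E)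
    (hC : ∀ i, Adds src dst (earlier C i) (C i))
    (h : ∀ n, 13 < n → ¬ HasCircuit src dst (univ.biUnion C) n) :
    ∃ D : Fin 6 → Finset E, (∀ i v, Even (deg src dst (D i) v)) ∧
      ∀ e, (univ.filter fun i => e ∈ D i).card = 4 := by
  classical
  -- no cut with one edge
  have hcut : Pool.Agent.TH676.A.Br src dst ∅ ∅ := by
    intro Y _ hY
    rw [sdiff_empty] at hY
    obtain ⟨e, he⟩ := card_eq_one.mp hY
    apply hI e
    intro hr
    have hstay : ∀ x y, (under src dst {e' | e' ≠ e}).Reachable x y → (x ∈ Y ↔ y ∈ Y) := by
      rintro x y ⟨p⟩
      induction p with
      | nil => exact Iff.rfl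
      | cons hadj _ ih =>
        refine Iff.trans ?_ ih
        obtain ⟨_, e', he', h1⟩ := hadj
        have hn : e' ∉ Pool.Agent.TH676.A.crs src dst Y := by
          rw [he, mem_singleton]; exact he'
        rw [Pool.Agent.TH676.A.mem_crs, not_not] at hn
        rcases h1 with ⟨h2, h3⟩ | ⟨h2, h3⟩
        · rw [h2, h3] at hn; exact hn
        · rw [h2, h3] at hn; exact hn.symm
    have hm : e ∈ Pool.Agent.TH676.A.crs src dst Y := by rw [he]; exact mem_singleton_self _
    rw [Pool.Agent.TH676.A.mem_crs] at hm
    exact hm (hstay _ _ hr)
  have hL : ∀ x y, Pool.Agent.J6H24.MC.Lk src dst (univ.biUnion C) x y ↔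
      Linked src dst (univ.biUnion C) x y :=
    Pool.Agent.J6H24.MC.lk_iff src dst (univ.biUnion C) _ (fun _ _ => Iff.rfl)
  refine Pool.Agent.J6H24.MC.cov_sets (Pool.Agent.J6H24.MC.cov13M
    (Pool.Agent.R890.FF.n1_of_br hcut) (Pool.Agent.J6H24.MC.Mod.of_steps (C := C) hC
      (fun r hr => Pool.Agent.J6H24.MC.noLong_of hr (fun n hn v hv => h n hn ⟨v, ?_, ?_⟩))))
  · intro i hi j hj hij
    exact hv.1 i hi j hj ((hL _ _).2 hij)
  · intro i hi
    obtain ⟨e, he⟩ := hv.2 i hi
    refine ⟨e, ?_⟩
    simpa only [hL] using he

end Pool.Agent.Results.MP_40718a_co.CircumferenceModuloChains
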