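import Pool.Agent.R890.FF.BF
import Pool.Agent.R129.Hfp.Seven

set_option autoImplicit false

/-! # Six even subgraphs with every edge in exactly four of them: seven vertices are not far apart

A finite graph, loops and parallel edges allowed, has vertex set `V` and edge set `E`; the ends of
the edge `e` are `src e` and `dst e`.  Two vertices are called close if they are joined by an edge or
by two different paths with two edges.  If the graph has no cut edge and any seven vertices include
two which are close (for example, if the independence number is at most six) then it has six even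
subgraphs such that every edge is in exactly four of them.  The order, the degrees and the
connectivity are arbitrary.

Proof.  By the starting files `R545/IN` and `R129/Hfp/Seven` every bridgeless graph obtained from the
graph by identification of vertices has a nowhere-zero flow over the group of order four, or ten
classes of vertices which form a Petersen graph with exactly three edges leaving each class.  In the
first case it is a union of two even subgraphs; in the second case one glues the solutions of the
ten smaller graphs at the ten 3-cuts of the quotient (`R890/FF`). -/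

namespace Pool.Agent.Results.MP_40718a_co.IndependenceNumberSix

open Finset

/-- the simple graph in which two distinct vertices are adjacent if an edge in `F` joins them -/
def under {V E : Type} (src dst : E → V) (F : Set E) : SimpleGraph V where
  Adj x y := x ≠ y ∧ ∃ e ∈ F, (src e = x ∧ dst e = y) ∨ (src e = y ∧ dst e = x)
  symm := ⟨fun _ _ h => ⟨h.1.symm, h.2.imp fun _ he => ⟨he.1, he.2.symm⟩⟩⟩
  loopless := ⟨fun _ h => h.1 rfl⟩

/-- the edge `e` is a cut edge: its ends are not connected by the other edges -/
def IsCutEdge {V E : Type} (src dst : E → V) (e : E) : Prop :=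
  ¬ (under src dst {e' | e' ≠ e}).Reachable (src e) (dst e)

/-- the degree of `v` in the set of edges `F`, where a loop counts twice -/
def deg {V E : Type} [DecidableEq V] (src dst : E → V) (F : Finset E) (v : V) : ℕ :=
  ∑ e ∈ F, ((if src e = v then 1 else 0) + (if dst e = v then 1 else 0))

/-- the ends of the edge `e` are `x` and `y` -/
def Joins {V E : Type} (src dst : E → V) (x y : V) (e : E) : Prop :=
  (src e = x ∧ dst e = y) ∨ (src e = y ∧ dst e = x)

/-- `x` and `y` are joined by an edge, or by two different paths with two edges (for example, they
have two common neighbours) -/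
def Close {V E : Type} (src dst : E → V) (x y : V) : Prop :=
  (∃ e, Joins src dst x y e) ∨
    ∃ (e f e' f' : E) (a b : V), (e ≠ e' ∨ f ≠ f') ∧ Joins src dst x a e ∧ Joins src dst a y f ∧
      Joins src dst x b e' ∧ Joins src dst b y f'

/-- **Theorem.** A graph without a cut edge in which any seven different vertices include two which
are close has six even subgraphs such that every edge is in exactly four of them. -/
theorem result (V E : Type) [Fintype V] [DecidableEq V] [Fintype E] [DecidableEq E]
    (src dst : E → V) (hI : ∀ e, ¬ IsCutEdge src dst e)
    (h7 : ∀ x : Fin 7 → V, Function.Injective x → ∃ i j, i ≠ j ∧ Close src dst (x i) (x j)) :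
    ∃ C : Fin 6 → Finset E, (∀ i v, Even (deg src dst (C i) v)) ∧
      ∀ e, (univ.filter fun i => e ∈ C i).card = 4 := by
  classical
  -- no cut with one edge
  have hcut : Pool.Agent.TH676.A.Br src dst ∅ ∅ := by
    intro Y _ hY
    rw [sdiff_empty] at hY
    obtain ⟨e, he⟩ := card_eq_one.mp hY
    apply hI e
    intro hr
    have hstay : ∀ x y, (under src dst {e' | e' ≠ e}).Reachable x y → (x ∈ Y ↔ y ∈ Y) := by
      rintro x y ⟨p⟩
      induction p with
      | nil => exact Iff.rfl
      | cons hadj _ ih =>
        refine Iff.trans ?_ ih
        obtain ⟨_, e', he', h1⟩ := hadj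
        have hn : e' ∉ Pool.Agent.TH676.A.crs src dst Y := by
          rw [he, mem_singleton]; exact he'
        rw [Pool.Agent.TH676.A.mem_crs, not_not] at hn
        rcases h1 with ⟨h2, h3⟩ | ⟨h2, h3⟩
        · rw [h2, h3] at hn; exact hn
        · rw [h2, h3] at hn; exact hn.symm
    have hm : e ∈ Pool.Agent.TH676.A.crs src dst Y := by rw [he]; exact mem_singleton_self _
    rw [Pool.Agent.TH676.A.mem_crs] at hm
    exact hm (hstay _ _ hr)
  have h7' : ∀ x : Fin 7 → V, Function.Injective x →
      ∃ i j, i ≠ j ∧ Pool.Agent.R545.IN.Close src dst (x i) (x j) := h7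
  obtain ⟨C, h1, h2⟩ := Pool.Agent.TH497.BF.six
    (Pool.Agent.R890.FF.alg_class Pool.Agent.TH497.BF.algAg Pool.Agent.R890.FF.petBF
      ⟨Pool.Agent.R890.FF.embBF, Pool.Agent.R890.FF.emb_A⟩
      (Cl := fun s t => ∃ ρ : V → V, s = (fun e => ρ (src e)) ∧ t = (fun e => ρ (dst e)))
      (by
        rintro s t π ⟨ρ, rfl, rfl⟩
        exact ⟨fun v => π (ρ v), rfl, rfl⟩)
      (by
        rintro s t ⟨ρ, rfl, rfl⟩ hN
        exact Pool.Agent.R129.Hfp.seven' src dst ρ hN h7')
      _ src dst rfl ⟨id, rfl, rfl⟩ (Pool.Agent.R890.FF.n1_of_br hcut))
  exact ⟨C, h1, h2⟩

end Pool.Agent.Results.MP_40718a_co.IndependenceNumberSix
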