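import Pool.Agent.J6H24.MC.Fin

set_option autoImplicit false

/-! # Six even subgraphs with every edge in exactly four of them: induced paths modulo chains

A finite graph, loops and parallel edges allowed, has vertex set `V` and edge set `E`; the ends of
the edge `e` are `src e` and `dst e`.  Let `C 0, ..., C (m - 1)` be a chain of sets of edges, each of
which has at most four edges outside of the earlier ones and no bridge modulo the earlier ones, or is
doubly connected modulo the earlier ones (for instance, circuits or ears with at most four new edges,
or pieces with two disjoint spanning trees).  If the graph has no cut edge and the graph obtained by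
contraction of the components of the union of the chain has no induced path with eight vertices, then
it has six even subgraphs such that every edge is in exactly four of them.  The empty chain gives the
starting theorem `InducedPathEight`.

Proof.  The class of graphs with this property is closed under the contraction of connected sets of
vertices (`J6H24/MC/Gen.lean`).  By the starting files `R140/PK` the contracted graph has a
nowhere-zero flow over the group of order four or ten classes of vertices which form a Petersen graph
with exactly three edges leaving each class.  In the first case the flow is lifted along the chain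
(`R926/SC`), and the graph is a union of two even subgraphs; in the second case one uses the
induction of `R140/PK`. -/

namespace Pool.Agent.Results.MP_40718a_co.InducedPathsModuloChains

open Finset

/-- the simple graph in which two distinct vertices are adjacent if an edge in `F` joins them -/
def under {V E : Type} (src dst : E → V) (F : Set E) : SimpleGraph V where
  Adj x y := x ≠ y ∧ ∃ e ∈ F, (src e = x ∧ dst e = y) ∨ (src e = y ∧ dst e = x)
  symm := ⟨fun _ _ h => ⟨h.1.symm, h.2.imp fun _ he => ⟨he.1, he.2.symm⟩⟩⟩
  loopless := ⟨fun _ h => h.1 rfl⟩

/-- the edge `e` is a cut edge: its ends are not connected by the other edges -/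
def IsCutEdge {V E : Type} (src dst : E → V) (e : E) : Prop :=
  ¬ (under src dst {e' | e' ≠ e}).Reachable (src e) (dst e)

/-- the degree of `v` in the set of edges `F`, where a loop counts twice -/
def deg {V E : Type} [DecidableEq V] (src dst : E → V) (F : Finset E) (v : V) : ℕ :=
  ∑ e ∈ F, ((if src e = v then 1 else 0) + (if dst e = v then 1 else 0))

/-- the edges with exactly one end in `X` -/
def boundary {V E : Type} [DecidableEq V] [Fintype E] (src dst : E → V) (X : Finset V) :
    Finset E :=
  univ.filter (fun e => ¬ (src e ∈ X ↔ dst e ∈ X))

/-- the union of the sets `C j` with `j < i` -/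
def earlier {E : Type} [DecidableEq E] {m : ℕ} (C : Fin m → Finset E) (i : Fin m) : Finset E :=
  (univ.filter (fun j => j < i)).biUnion C

/-- `H` can be added to the chain after `F`: either (short) `H` has at most four edges outside `F`
and no bridge modulo `F`: no set `Y` of vertices without boundary edges in `F` has exactly one
boundary edge in `H`; or (doubly connected) `H` contains two disjoint sets each of which connects,
modulo `F`, whatever `H` connects: every set `Y` of vertices without boundary edges in `F` and with
a boundary edge in `H` has boundary edges in both sets. -/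
def Adds {V E : Type} [DecidableEq V] [Fintype E] [DecidableEq E] (src dst : E → V)
    (F H : Finset E) : Prop :=
  ((H \ F).card ≤ 4 ∧ ∀ Y : Finset V, Disjoint (boundary src dst Y) F →
    (boundary src dst Y ∩ H).card ≠ 1) ∨
  ∃ T₁ T₂ : Finset E, T₁ ⊆ H ∧ T₂ ⊆ H ∧ Disjoint T₁ T₂ ∧ ∀ Y : Finset V,
    Disjoint (boundary src dst Y) F → ¬ Disjoint (boundary src dst Y) H →
      ¬ Disjoint (boundary src dst Y) T₁ ∧ ¬ Disjoint (boundary src dst Y) T₂

/-- `x` and `y` are in the same component of the graph with edge set `F` -/
def Linked {V E : Type} (src dst : E → V) (F : Finset E) (x y : V) : Prop :=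
  (under src dst {e | e ∈ F}).Reachable x y

/-- The graph obtained by contraction of the components of `F` has an induced path with eight
vertices: there are `p 0, ..., p 7` in different components of `F` such that an edge joins the
components of `p i` and `p j`, where `i < j`, if and only if `j = i + 1`. -/
def HasInducedPathEight {V E : Type} (src dst : E → V) (F : Finset E) : Prop :=
  ∃ p : Fin 8 → V, (∀ i j, Linked src dst F (p i) (p j) → i = j) ∧ ∀ i j : Fin 8, i < j →
    ((∃ e, (Linked src dst F (src e) (p i) ∧ Linked src dst F (dst e) (p j)) ∨
      (Linked src dst F (src e) (p j) ∧ Linked src dst F (dst e) (p i))) ↔ i.val + 1 = j.val)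

/-- **Theorem.** Let a graph without a cut edge be given, and a chain of sets of edges.  If the graph
obtained by contraction of the components of the union of the chain has no induced path with eight
vertices, then there are six even subgraphs such that every edge is in exactly four of them. -/
theorem result (V E : Type) [Fintype V] [DecidableEq V] [Fintype E] [DecidableEq E]
    (src dst : E → V) (hI : ∀ e, ¬ IsCutEdge src dst e) (m : ℕ) (C : Fin m → Finset E)
    (hC : ∀ i, Adds src dst (earlier C i) (C i))
    (h : ¬ HasInducedPathEight src dst (univ.biUnion C)) :
    ∃ D : Fin 6 → Finset E, (∀ i v, Even (deg src dst (D i) v)) ∧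
      ∀ e, (univ.filter fun i => e ∈ D i).card = 4 := by
  classical
  -- no cut with one edge
  have hcut : Pool.Agent.TH676.A.Br src dst ∅ ∅ := by
    intro Y _ hY
    rw [sdiff_empty] at hY
    obtain ⟨e, he⟩ := card_eq_one.mp hY
    apply hI e
    intro hr
    have hstay : ∀ x y, (under src dst {e' | e' ≠ e}).Reachable x y → (x ∈ Y ↔ y ∈ Y) := by
      rintro x y ⟨p⟩
      induction p with
      | nil => exact Iff.rfl
      | cons hadj _ ih =>
        refine Iff.trans ?_ ih
        obtain ⟨_, e', he', h1⟩ := hadj
        have hn : e' ∉ Pool.Agent.TH676.A.crs src dst Y := by
          rw [he, mem_singleton]; exact he'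
        rw [Pool.Agent.TH676.A.mem_crs, not_not] at hn
        rcases h1 with ⟨h2, h3⟩ | ⟨h2, h3⟩
        · rw [h2, h3] at hn; exact hn
        · rw [h2, h3] at hn; exact hn.symm
    have hm : e ∈ Pool.Agent.TH676.A.crs src dst Y := by rw [he]; exact mem_singleton_self _
    rw [Pool.Agent.TH676.A.mem_crs] at hm
    exact hm (hstay _ _ hr)
  have hL : ∀ x y, Pool.Agent.J6H24.MC.Lk src dst (univ.biUnion C) x y ↔
      Linked src dst (univ.biUnion C) x y :=
    Pool.Agent.J6H24.MC.lk_iff src dst (univ.biUnion C) _ (fun _ _ => Iff.rfl)
  refine Pool.Agent.J6H24.MC.cov_sets (Pool.Agent.J6H24.MC.cov8M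
    (Pool.Agent.R890.FF.n1_of_br hcut) (Pool.Agent.J6H24.MC.Mod.of_steps (C := C) hC
      (fun r hr => Pool.Agent.J6H24.MC.noPath_of hr ?_)))
  rintro ⟨p, h1, h2⟩
  simp only [hL] at h1 h2
  exact h ⟨p, h1, h2⟩

end Pool.Agent.Results.MP_40718a_co.InducedPathsModuloChains
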